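import Pool.Agent.Q17.RR.Stm
import Pool.Agent.Q275.DM.DMR
import Pool.Agent.Q14.DM.CDN
import Pool.Agent.Q252.DM.CDM

/-!
# Project RR of helper17, job WPK (the alternating sums for `FX β`), by helper212

(the invariance under conjugation follows `Pool.Agent.Q275.DM.DMR`)
-/

set_option autoImplicit false

open scoped BigOperators Classical
open Pool.Agent.H254R3.IN hiding NN
open Pool.Agent.Y63.KR Pool.Agent.Q17.WR Pool.Agent.Q17.DC Pool.Agent.Q17.AM Pool.Agent.Q17.OS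
open Pool.Agent.Q17.DM Pool.Agent.Q17.RB Pool.Agent.Q17.RR

noncomputable section

namespace Pool.Agent.Q212.RR

section conj

variable {Γ : Type} [Group Γ]

/-- transport of a counted character -/
lemma ck_of {O : ValuationSubring ℂ} {B : Set (Γ → ℂ)} {X : Set Γ} {K : Set (ℂ ≃+* ℂ)}
    {H H' : Subgroup Γ} (c : H' ≃* H) {g : Γ}
    (hc : ∀ x, ((c x : H) : Γ) = g⁻¹ * x * g)
    (hc' : ∀ x, ((c.symm x : H') : Γ) = g * x * g⁻¹) {ψ : H → ℂ}
    (h : IsIrr ψ ∧ Ind O B X H ψ ∧ ∀ s ∈ K, ∀ g, s (ψ g) = ψ g) :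
    IsIrr (fun x => ψ (c x)) ∧ Ind O B X H' (fun x => ψ (c x)) ∧
      ∀ s ∈ K, ∀ g, s (ψ (c g)) = ψ (c g) := by
  refine ⟨Q222.TC.irr_comp c h.1, ?_, fun s hs x => h.2.2 s hs (c x)⟩
  intro χ hχ x hx
  have h1 := h.2.1 χ hχ x hx
  have h2 : ∑ᶠ y : {y : H' // IsConj x (y : Γ)}, ψ (c y) / ψ (c 1) =
      ∑ᶠ y : {y : H // IsConj x (y : Γ)}, ψ y / ψ 1 := by
    refine finsum_eq_of_bijective
      (fun y : {y : H' // IsConj x (y : Γ)} =>
        (⟨c y.1, by
          rw [hc]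
          refine y.2.trans ?_
          rw [isConj_iff]
          refine ⟨g⁻¹, ?_⟩
          group⟩ : {y : H // IsConj x (y : Γ)})) ⟨?_, ?_⟩ ?_
    · intro y y' hyy
      exact Subtype.ext (c.injective (congrArg Subtype.val hyy))
    · rintro ⟨y, hy⟩
      refine ⟨⟨c.symm y, ?_⟩, ?_⟩
      · rw [hc']
        refine hy.trans ?_
        rw [isConj_iff]
        exact ⟨g, rfl⟩
      · apply Subtype.ext
        exact c.apply_symm_apply y
    · intro y
      change ψ (c y.1) / ψ (c 1) = ψ (c y.1) / ψ 1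
      rw [map_one]
  rw [← h2] at h1
  exact h1

/-- the number of the counted characters and conjugation -/
lemma ck_conj {O : ValuationSubring ℂ} {B : Set (Γ → ℂ)} {X : Set Γ} {K : Set (ℂ ≃+* ℂ)}
    {H H' : Subgroup Γ} {g : Γ} (hH : ∀ e, e ∈ H' ↔ g⁻¹ * e * g ∈ H) :
    ck O B X K H' = ck O B X K H := by
  have hm : ∀ x : Γ, x ∈ H' → g⁻¹ * x * g ∈ H := fun x hx => (hH x).mp hx
  have hm' : ∀ x : Γ, x ∈ H → g * x * g⁻¹ ∈ H' := fun x hx =>
    (hH _).mpr (by
      have e : g⁻¹ * (g * x * g⁻¹) * g = x := by group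
      rw [e]
      exact hx)
  let c : H' ≃* H :=
    { toFun := fun x => ⟨g⁻¹ * x * g, hm _ x.2⟩
      invFun := fun x => ⟨g * x * g⁻¹, hm' _ x.2⟩
      left_inv := fun x => Subtype.ext (by
        change g * (g⁻¹ * (x : Γ) * g) * g⁻¹ = x
        group)
      right_inv := fun x => Subtype.ext (by
        change g⁻¹ * (g * (x : Γ) * g⁻¹) * g = x
        group)
      map_mul' := fun x y => Subtype.ext (by
        change g⁻¹ * ((x : Γ) * y) * g = g⁻¹ * x * g * (g⁻¹ * y * g)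
        group) }
  have hc : ∀ x, ((c x : H) : Γ) = g⁻¹ * x * g := fun x => rfl
  have hc' : ∀ x, ((c.symm x : H') : Γ) = g * x * g⁻¹ := fun x => rfl
  unfold ck
  refine Nat.card_congr (Equiv.symm ?_)
  exact
    { toFun := fun ψ => ⟨fun x => ψ.1 (c x), ck_of c hc hc' ψ.2⟩
      invFun := fun ψ => ⟨fun x => ψ.1 (c.symm x), ck_of c.symm (g := g⁻¹)
        (fun x => by rw [hc', inv_inv]) (fun x => by
          change ((c x : H) : Γ) = _
          rw [hc, inv_inv]) ψ.2⟩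
      left_inv := fun ψ => Subtype.ext (funext fun x => by
        change ψ.1 (c (c.symm x)) = ψ.1 x
        rw [c.apply_symm_apply])
      right_inv := fun ψ => Subtype.ext (funext fun x => by
        change ψ.1 (c.symm (c x)) = ψ.1 x
        rw [c.symm_apply_apply]) }

/-- the conjugate subgroup -/
lemma ck_map {O : ValuationSubring ℂ} {B : Set (Γ → ℂ)} {X : Set Γ} {K : Set (ℂ ≃+* ℂ)}
    (L : Subgroup Γ) (g : Γ) :
    ck O B X K (L.map (MulAut.conj g).toMonoidHom) = ck O B X K L := by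
  refine ck_conj (g := g) fun e => ?_
  constructor
  · rintro ⟨y, hy, rfl⟩
    have h : g⁻¹ * (MulAut.conj g).toMonoidHom y * g = y := by
      change g⁻¹ * (g * y * g⁻¹) * g = y
      group
    rw [h]
    exact hy
  · intro h
    refine ⟨_, h, ?_⟩
    change g * (g⁻¹ * e * g) * g⁻¹ = e
    group

/-- the alternating sum and the sum over all chains -/
lemma SK_CS [Finite Γ] (hALX : S_ALX) (p : ℕ) [Fact p.Prime] (O : ValuationSubring ℂ)
    (B : Set (Γ → ℂ)) (K : Set (ℂ ≃+* ℂ)) :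
    CS p ⊤ ⊥ (fun H : Subgroup Γ => (Nat.card H : ℤ) * (ck O B Set.univ K H : ℤ)) =
      (Nat.card Γ : ℤ) * SK p O B K := by
  unfold SK
  have h0 := hALX p Γ ⊤ ⊥ (fun σ => (ck O B Set.univ K (chainStabilizer σ) : ℤ))
    fun σ _ g _ => by
      rw [ck_conj (Q261.OS.stab_conj σ g)]
  rw [Nat.card_congr (Subgroup.topEquiv (G := Γ)).toEquiv] at h0
  rw [h0]
  unfold CS Ns
  simp only [top_inf_eq]

end conj

/-- restriction of the sum over chains to those in a subgroup -/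
lemma CS_restrict {Γ : Type} [Group Γ] (p : ℕ) (M : Subgroup Γ) (F F' : Subgroup Γ → ℤ)
    (h0 : ∀ σ : Set (Subgroup Γ), Ch p ⊤ ⊥ σ → (∃ P ∈ σ, ¬ P ≤ M) → F' (chainStabilizer σ) = 0)
    (h1 : ∀ σ : Set (Subgroup Γ), Ch p ⊤ ⊥ σ → F' (chainStabilizer σ) = F (chainStabilizer σ)) :
    CS p ⊤ ⊥ F' = CS p M ⊥ F := by
  unfold CS
  rw [finsum_subtype_eq_finsum_cond
      (f := fun σ : Set (Subgroup Γ) => (-1 : ℤ) ^ σ.ncard * F' (chainStabilizer σ))
      (Ch p (⊤ : Subgroup Γ) ⊥),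
    finsum_subtype_eq_finsum_cond
      (f := fun σ : Set (Subgroup Γ) => (-1 : ℤ) ^ σ.ncard * F (chainStabilizer σ)) (Ch p M ⊥)]
  refine finsum_congr fun σ => ?_
  rw [finsum_eq_if, finsum_eq_if]
  by_cases h : Ch p M ⊥ σ
  · have h2 : Ch p ⊤ ⊥ σ := ⟨h.chain, h.isp, fun P _ => le_top, h.lt⟩
    rw [if_pos h, if_pos h2, h1 σ h2]
  · rw [if_neg h]
    by_cases h2 : Ch p ⊤ ⊥ σ
    · rw [if_pos h2, h0 σ h2 ?_, mul_zero]
      by_contra hcon
      push Not at hcon
      exact h ⟨h2.chain, h2.isp, hcon, h2.lt⟩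
    · rw [if_neg h2]

lemma CS_mul {Γ : Type} [Group Γ] [Finite Γ] (p : ℕ) (X Z : Subgroup Γ) (c : ℤ)
    (F : Subgroup Γ → ℤ) : CS p X Z (fun H => c * F H) = c * CS p X Z F := by
  unfold CS
  rw [mul_finsum]
  exact finsum_congr fun σ => by ring

lemma CS_zero {Γ : Type} [Group Γ] (p : ℕ) (X Z : Subgroup Γ) :
    CS p X Z (fun _ : Subgroup Γ => (0 : ℤ)) = 0 := by
  unfold CS
  refine finsum_eq_zero_of_forall_eq_zero fun σ => ?_
  rw [mul_zero]

/-- **WPK** -/
theorem t_WPK : S_ALX → S_ASB → S_CKW → S_CKL → S_OUT → S_CKC → S_FXB → S_GCK → S_WPK := by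
  intro hALX hASB hCKW hCKL hOUT hCKC hFXB hGCK p q hp hq G _ _ O hO D β hF K
  have hfW : Finite (Wc G q) := Finite.of_equiv _ SemidirectProduct.equivProd.symm
  let _ : Fintype (Wc G q) := Fintype.ofFinite _
  have hcC : Fintype.card (Cy q) = q := Q162.AM.fc_Cy
  let F : Subgroup (Wc G q) → ℤ := fun H =>
    (Nat.card H : ℤ) * (ck O (FX β) {x | x.right = 1} K H : ℤ)
  let F' : Subgroup (Wc G q) → ℤ := fun H =>
    (Nat.card H : ℤ) * (ck O (FX β) Set.univ K H : ℤ)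
  have hblk := hFXB G (Cy q) p O hO β hF.blk hF.inj D hF.dfg
  have e1 : CS p ⊤ ⊥ F' = CS p (Bs G (Cy q) (Cy q)) ⊥ F := by
    refine CS_restrict p _ F F' ?_ ?_
    · rintro σ hσ ⟨P, hP, hPM⟩
      have h0 : ck O (FX β) Set.univ K (chainStabilizer σ) = 0 := by
        unfold ck
        rw [Nat.card_eq_zero]
        left
        refine ⟨fun ψ => hPM ?_⟩
        obtain ⟨g, hg⟩ := hOUT (Wc G q) p O hO (FX β) (Da (Cy q) D) hblk.1 hblk.2.1 σ hσ
          ⟨ψ.1, ψ.2.1, ψ.2.2.1⟩ P hP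
        intro x hx
        have h3 : g * x * g⁻¹ ∈ Bs G (Cy q) (Cy q) := (hg x hx).1
        have h4 := (inferInstance : (Bs G (Cy q) (Cy q)).Normal).conj_mem _ h3 g⁻¹
        have h5 : g⁻¹ * (g * x * g⁻¹) * g⁻¹⁻¹ = x := by group
        rwa [h5] at h4
      change (Nat.card (chainStabilizer σ) : ℤ) *
        (ck O (FX β) Set.univ K (chainStabilizer σ) : ℤ) = 0
      rw [h0, Nat.cast_zero, mul_zero]
    · intro σ hσ
      have h0 : ck O (FX β) Set.univ K (chainStabilizer σ) =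
          ck O (FX β) {x | x.right = 1} K (chainStabilizer σ) := by
        unfold ck
        refine Nat.card_congr (Equiv.subtypeEquivRight fun ψ => ?_)
        constructor
        · rintro ⟨h1, h2, h3⟩
          exact ⟨h1, (hCKC p q G O hO D β hF σ hσ ψ h1).2 h2, h3⟩
        · rintro ⟨h1, h2, h3⟩
          exact ⟨h1, (hCKC p q G O hO D β hF σ hσ ψ h1).1 h2, h3⟩
      change (Nat.card (chainStabilizer σ) : ℤ) *
          (ck O (FX β) Set.univ K (chainStabilizer σ) : ℤ) =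
        (Nat.card (chainStabilizer σ) : ℤ) *
          (ck O (FX β) {x | x.right = 1} K (chainStabilizer σ) : ℤ)
      rw [h0]
  have e2 : CS p ⊤ ⊥ F' = (Nat.card (Wc G q) : ℤ) * SK p O (FX β) K :=
    SK_CS hALX p O (FX β) K
  have hcW : (Nat.card (Wc G q) : ℤ) = q * (Nat.card G : ℤ) ^ q := by
    rw [Q14.DM.card_Wc]
    push_cast
    rfl
  have hcG : (Nat.card G : ℤ) ≠ 0 := by
    have := (Nat.card_pos (α := G)).ne'
    exact_mod_cast this
  have hq0 : (q : ℤ) ≠ 0 := by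
    have := hq.out.ne_zero
    exact_mod_cast this
  rw [e1, hcW] at e2
  let F₁ : Cy q → Cy q → Subgroup G → ℤ := fun a ω L =>
    (Nat.card L : ℤ) * (ck O (β (a * ω)) Set.univ K L : ℤ)
  have hPw : ∀ H : Cy q → Subgroup G, F (Pw H) = ∑ a, ∏ ω, F₁ a ω (H ω) := by
    intro H
    change (Nat.card (Pw H) : ℤ) * (ck O (FX β) {x | x.right = 1} K (Pw H) : ℤ) =
      ∑ a, ∏ ω, (Nat.card (H ω) : ℤ) * (ck O (β (a * ω)) Set.univ K (H ω) : ℤ)
    rw [hCKW p q G O hO D β hF K H, Q252.DM.card_Pw]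
    push_cast
    rw [Finset.mul_sum]
    exact Finset.sum_congr rfl fun a _ => by rw [Finset.prod_mul_distrib]
  have hcL : ∀ (L : Subgroup G) (m : Cy q → G), (Nat.card (Lw m L) : ℤ) =
      q * (Nat.card L : ℤ) ^ q := by
    intro L m
    rw [Nat.card_congr (Q14.DM.eW m L).toEquiv, Q14.DM.card_Wc]
    push_cast
    rfl
  have hpow : ∀ x : ℤ, x ^ (q - 1) * x = x ^ q := by
    intro x
    rw [← pow_succ, Nat.sub_add_cancel hq.out.pos]
  constructor
  · intro hK
    have hLw : ∀ (L : Subgroup G) (m : Cy q → G),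
        F (Lw m L) - F (Bi (Lw m L)) = ((Nat.card L : ℤ) ^ (q - 1)) * 0 := by
      intro L m
      rw [mul_zero, sub_eq_zero, Q14.DM.Bi_eq, hPw]
      change (Nat.card (Lw m L) : ℤ) * (ck O (FX β) {x | x.right = 1} K (Lw m L) : ℤ) =
        ∑ a, ∏ ω, (Nat.card (L.map (MulAut.conj (m ω)).toMonoidHom) : ℤ) *
          (ck O (β (a * ω)) Set.univ K (L.map (MulAut.conj (m ω)).toMonoidHom) : ℤ)
      rw [hcL, (hCKL p q G O hO D β hF K L m).1 hK]
      have h1 : ∀ a : Cy q, ∏ ω, (Nat.card (L.map (MulAut.conj (m ω)).toMonoidHom) : ℤ) *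
          (ck O (β (a * ω)) Set.univ K (L.map (MulAut.conj (m ω)).toMonoidHom) : ℤ) =
          (Nat.card L : ℤ) ^ q * ∏ ω, (ck O (β ω) Set.univ K L : ℤ) := by
        intro a
        have h2 : ∀ ω : Cy q, Nat.card (L.map (MulAut.conj (m ω)).toMonoidHom) = Nat.card L :=
          fun ω => (Nat.card_congr
            (L.equivMapOfInjective _ (MulAut.conj (m ω)).injective).toEquiv).symm
        rw [Finset.prod_mul_distrib]
        congr 1
        · rw [Finset.prod_congr rfl fun ω _ => by rw [h2 ω], Finset.prod_const,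
            Finset.card_univ, hcC]
        · rw [Finset.prod_congr rfl fun ω _ => by rw [ck_map L (m ω)]]
          exact Fintype.prod_equiv (Equiv.mulLeft a) _ _ fun ω => rfl
      rw [Finset.sum_congr rfl fun a _ => h1 a, Finset.sum_const, Finset.card_univ, hcC,
        nsmul_eq_mul]
      push_cast
      ring
    have h1 := hASB p q G (Cy q) F F₁ (fun _ => 0) hPw hLw
    rw [CS_zero, mul_zero, add_zero, e2] at h1
    have h2 : ∀ a : Cy q, ∏ ω, CS p ⊤ ⊥ (F₁ a ω) =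
        (Nat.card G : ℤ) ^ q * ∏ ω, SK p O (β ω) K := by
      intro a
      have h3 : ∀ ω, CS p ⊤ ⊥ (F₁ a ω) = (Nat.card G : ℤ) * SK p O (β (a * ω)) K :=
        fun ω => SK_CS hALX p O (β (a * ω)) K
      rw [Finset.prod_congr rfl fun ω _ => h3 ω, Finset.prod_mul_distrib, Finset.prod_const,
        Finset.card_univ, hcC]
      congr 1
      exact Fintype.prod_equiv (Equiv.mulLeft a) _ _ fun ω => rfl
    rw [Finset.sum_congr rfl fun a _ => h2 a, Finset.sum_const, Finset.card_univ, hcC,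
      nsmul_eq_mul, ← mul_assoc] at h1
    exact mul_left_cancel₀ (mul_ne_zero hq0 (pow_ne_zero _ hcG)) h1
  · intro hM
    have hnt : ∃ a : Cy q, a ≠ 1 := by
      have : 1 < Fintype.card (Cy q) := by
        rw [hcC]
        exact hq.out.one_lt
      exact Fintype.exists_ne_of_one_lt_card this 1
    obtain ⟨a, ha⟩ := hnt
    obtain ⟨s, hs, hsm⟩ := hM.onto a
    have hck0 : ∀ (ω : Cy q) (L : Subgroup G), ck O (β ω) Set.univ K L = 0 := by
      intro ω L
      unfold ck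
      rw [Nat.card_eq_zero]
      left
      refine ⟨fun ψ => ha ?_⟩
      have h1 := (hGCK G O s (β ω) (β (a * ω)) (hF.blk ω) (hF.blk (a * ω)) L).2.2.1 (hsm ω)
        ψ.1 ψ.2.1 (ψ.2.2.2 s hs) ψ.2.2.1
      have h2 := hF.inj h1
      exact (mul_eq_right.1 h2.symm)
    have hPw0 : ∀ H : Cy q → Subgroup G, F (Pw H) = 0 := by
      intro H
      rw [hPw]
      refine Finset.sum_eq_zero fun b _ => Finset.prod_eq_zero (Finset.mem_univ 1) ?_
      change (Nat.card (H 1) : ℤ) * (ck O (β (b * 1)) Set.univ K (H 1) : ℤ) = 0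
      rw [hck0, Nat.cast_zero, mul_zero]
    let Φ : Subgroup G → ℤ := fun L => (q : ℤ) * ((Nat.card L : ℤ) *
      (ck O (β 1) Set.univ {s | s ∈ K ∧ St s (β 1)} L : ℤ))
    have hLw : ∀ (L : Subgroup G) (m : Cy q → G),
        F (Lw m L) - F (Bi (Lw m L)) = ((Nat.card L : ℤ) ^ (q - 1)) * Φ L := by
      intro L m
      rw [Q14.DM.Bi_eq, hPw0, sub_zero]
      change (Nat.card (Lw m L) : ℤ) * (ck O (FX β) {x | x.right = 1} K (Lw m L) : ℤ) =
        ((Nat.card L : ℤ) ^ (q - 1)) * ((q : ℤ) * ((Nat.card L : ℤ) *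
          (ck O (β 1) Set.univ {s | s ∈ K ∧ St s (β 1)} L : ℤ)))
      rw [hcL, (hCKL p q G O hO D β hF K L m).2 hM, ← hpow]
      ring
    have h1 := hASB p q G Empty F (fun e => e.elim) Φ (fun H => by
      rw [hPw0]
      rfl) hLw
    rw [e2] at h1
    have h2 : CS p ⊤ ⊥ Φ = (q : ℤ) * ((Nat.card G : ℤ) *
        SK p O (β 1) {s | s ∈ K ∧ St s (β 1)}) := by
      rw [← SK_CS hALX p O (β 1) {s | s ∈ K ∧ St s (β 1)}]
      exact CS_mul p ⊤ ⊥ (q : ℤ) _
    rw [h2, Fintype.sum_empty, zero_add] at h1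
    refine mul_left_cancel₀ (mul_ne_zero hq0 (pow_ne_zero q hcG)) ?_
    rw [h1, ← hpow]
    ring

end Pool.Agent.Q212.RR
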